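import Pool.Agent.Helper66_KF.Stmts
import Pool.Agent.Helper50_PP.Ffa
import Pool.Agent.Helper46_PP.Alg

/-!
# Squad KF, row GQ4: the hypothesis of the reduction theorem for the class `V4`
-/

open scoped BigOperators

noncomputable section

namespace Pool.Agent.PP.KF.H99

open Pool.Agent.Helper51_AWC Pool.Agent.Helper79_WRA Pool.Agent.PP

attribute [local instance] Ideal.Quotient.field

/-- a group which embeds into the Klein four group and has not four elements is cyclic -/
theorem cyc_of_V4 {Q : Type} [Group Q] (h : V4 Q) (h4 : Nat.card Q ≠ 4) : IsCyclic Q := by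
  obtain ⟨j, hj⟩ := h
  have h1 : Nat.card (Multiplicative (ZMod 2) × Multiplicative (ZMod 2)) = 4 := by
    rw [Nat.card_prod, show Nat.card (Multiplicative (ZMod 2)) = Nat.card (ZMod 2) from rfl,
      Nat.card_zmod]
  have h2 : Nat.card Q ∣ 4 := h1 ▸ Subgroup.card_dvd_of_injective j hj
  have : Finite Q := Finite.of_injective j hj
  have h3 : Nat.card Q ≤ 4 := Nat.le_of_dvd (by norm_num) h2
  have h5 : 0 < Nat.card Q := Nat.card_pos
  interval_cases h6 : Nat.card Q
  · have := (Nat.card_eq_one_iff_unique.1 h6).1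
    exact isCyclic_of_subsingleton
  · exact isCyclic_of_prime_card h6
  · norm_num at h2
  · exact absurd rfl h4

/-- GQ4 -/
theorem gq4 (hC : Ct4Stmt) (hD : CD2.D2aStmt) (hA : AddStmt) : Gq4Stmt := by
  intro M _ h2M G _ _ e he hp hdf
  have hF : GoodF 2 (FF M) := H50.fld 2 Nat.prime_two M (by exact_mod_cast h2M)
  have : Fact (Nat.Prime 2) := ⟨Nat.prime_two⟩
  refine hA 2 (FF M) hF G ⊤ inferInstance e he fun f hf hef => ?_
  have hfe : mulF f e = f := by rw [H46.mulF_comm hf.1.1, hef]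
  have hpf : Pos 2 f ⊤ := H46.pos_mono hf.1 hfe hp
  have hdf' : DF.DfE 2 V4 f ⊤ := DF.DfE.le hF he.1 hf.1.1 hef hdf
  by_cases hV : ∃ V : Subgroup G, Nat.card V = 4 ∧ ∃ g ∈ Subgroup.centralizer (V : Set G), f g ≠ 0
  · exact hC M h2M G f ⟨hf, hdf', hV⟩
  · refine hD 2 (FF M) hF G ⊤ inferInstance f hf.1 hpf
      ⟨f, hf.1, fun x hx => absurd (Subgroup.mem_top x) hx, hf.1.2, fun Q hQ hQp hbr => ?_⟩
    have h1 : ∃ g ∈ Subgroup.centralizer (Q : Set G), f g ≠ 0 := by
      by_contra hcon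
      push Not at hcon
      apply hbr
      funext t
      by_cases ht : t ∈ Subgroup.centralizer (Q : Set G)
      · rw [H66.br_of_mem ht]
        exact hcon t ht
      · rw [H66.br_of_not_mem ht]
        rfl
    exact cyc_of_V4 (hdf' Q hQ hQp h1) fun h4 => hV ⟨Q, h4, h1⟩

end Pool.Agent.PP.KF.H99
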