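import Pool.Agent.Helper66_KF.Stmts
import Pool.Agent.Helper20_PP.Nls
import Pool.Agent.Helper50_PP.Ffa
import Pool.Agent.Helper50_PP.Res
import Pool.Agent.Helper46_PP.Alg

/-!
# Squad KF, row IDN: the counting identity for idempotents whose blocks have Klein four defect
groups
-/

open scoped BigOperators

noncomputable section

namespace Pool.Agent.PP.KF.H99

open Pool.Agent.Helper51_AWC Pool.Agent.Helper79_WRA Pool.Agent.PP

attribute [local instance] Ideal.Quotient.field

section add

variable {M : Ideal (integralClosure ℤ ℂ)} [M.IsMaximal] {H : Type} [Group H] [Finite H]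

theorem isIdem_add {F : Type} [Field F] {e₁ e₂ : H → F} (h1 : IsIdem e₁) (h2 : IsIdem e₂)
    (h12 : mulF e₁ e₂ = 0) : IsIdem (e₁ + e₂) := by
  have k3 : ma e₁ * ma e₂ = 0 := by rw [← ma_mul, h12, ma_zero]
  have k4 : ma e₂ * ma e₁ = 0 := by rw [← H46.comm_ma h1.1, k3]
  rw [isIdem_iff, ma_add]
  refine ⟨Subalgebra.add_mem _ ((isIdem_iff e₁).1 h1).1 ((isIdem_iff e₂).1 h2).1, ?_⟩
  change (ma e₁ + ma e₂) * (ma e₁ + ma e₂) = ma e₁ + ma e₂
  rw [mul_add, add_mul, add_mul, H46.ma_idem h1, H46.ma_idem h2, k3, k4, add_zero, zero_add]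

theorem rk_idem {e : H → FF M} (he : IsIdem e) : rk e (cfs (FF M) H) = (IrrE M e).ncard := by
  have := Fintype.ofFinite H
  exact H50.chp_main he

theorem rk_zero : rk (0 : H → FF M) (cfs (FF M) H) = 0 := by
  have := Fintype.ofFinite H
  rw [rk_idem H46.isIdem_zero]
  have h1 : IrrE M (0 : H → FF M) = ∅ := by
    ext χ
    simp only [IrrE, Set.mem_ofPred_eq, Set.mem_empty_iff_false, iff_false, not_and]
    intro _ h
    rw [H50.res_zero] at h
    exact zero_ne_one h
  rw [h1, Set.ncard_empty]

theorem rk_add {e₁ e₂ : H → FF M} (h1 : IsIdem e₁) (h2 : IsIdem e₂) (h12 : mulF e₁ e₂ = 0) :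
    rk (e₁ + e₂) (cfs (FF M) H) = rk e₁ (cfs (FF M) H) + rk e₂ (cfs (FF M) H) := by
  have := Fintype.ofFinite H
  rw [rk_idem (isIdem_add h1 h2 h12), rk_idem h1, rk_idem h2]
  have hprod : ∀ χ ∈ Irr H, res M e₁ χ * res M e₂ χ = 0 := by
    intro χ hχ
    rw [← H50.res_mul h1.1 h2.1 hχ, h12, H50.res_zero]
  have hfin : (Irr H).Finite := by
    have : Finite (Irr H) := inferInstance
    exact Set.toFinite _
  have hU : IrrE M (e₁ + e₂) = IrrE M e₁ ∪ IrrE M e₂ := by
    ext χ
    simp only [IrrE, Set.mem_ofPred_eq, Set.mem_union]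
    constructor
    · rintro ⟨hχ, h⟩
      rw [H50.res_add] at h
      rcases H50.res_idem h1 hχ with h3 | h3
      · right
        rw [h3, zero_add] at h
        exact ⟨hχ, h⟩
      · left
        exact ⟨hχ, h3⟩
    · rintro (⟨hχ, h⟩ | ⟨hχ, h⟩)
      · refine ⟨hχ, ?_⟩
        have := hprod χ hχ
        rw [h, one_mul] at this
        rw [H50.res_add, h, this, add_zero]
      · refine ⟨hχ, ?_⟩
        have := hprod χ hχ
        rw [h, mul_one] at this
        rw [H50.res_add, h, this, zero_add]
  rw [hU, Set.ncard_union_eq (hs := hfin.subset fun χ h => h.1)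
    (ht := hfin.subset fun χ h => h.1)]
  rw [Set.disjoint_left]
  rintro χ ⟨hχ, h⟩ ⟨_, h'⟩
  have := hprod χ hχ
  rw [h, h', one_mul] at this
  exact one_ne_zero this

end add

section orb

variable {X : Type} [Group X]

/-- The conjugacy class of a subgroup: `|N(V)|` times the number of conjugates is `|X|`. -/
theorem card_class (S : Set (Subgroup X)) (V : Subgroup X) (hV : V ∈ S)
    (hS : ∀ W ∈ S, ∀ g, conjS g W ∈ S) (hT : ∀ W ∈ S, ∃ g, W = conjS g V) :
    Nat.card (Subgroup.normalizer (V : Set X)) * S.ncard = Nat.card X := by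
  let A : MulAction X (Subgroup X) :=
    { smul := fun g D => conjS g D
      one_smul := fun D => conjS_one D
      mul_smul := fun g h D => (conjS_conjS h g D).symm }
  have h1 : MulAction.orbit X V = S := by
    ext W
    constructor
    · rintro ⟨g, rfl⟩
      exact hS V hV g
    · intro hW
      obtain ⟨g, hg⟩ := hT W hW
      exact ⟨g, hg.symm⟩
  have h2 : MulAction.stabilizer X V = Subgroup.normalizer (V : Set X) := by
    ext g
    rw [MulAction.mem_stabilizer_iff, mem_normalizer_iff_conjS]
    rfl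
  have h3 := MulAction.index_stabilizer X V
  rw [h1, h2] at h3
  rw [← h3, Subgroup.card_mul_index]

end orb

/-- IDN -/
theorem idn (hK : K4Stmt) (hFM : Fm4Stmt) : IdnStmt := by
  classical
  intro M _ h2M X _ _
  have hF : GoodF 2 (FF M) := H50.fld 2 Nat.prime_two M (by exact_mod_cast h2M)
  have hfinS := Fintype.ofFinite (Subgroup X)
  -- the sum as a finite sum
  have hsum : ∀ g : Subgroup X → ℕ, ∑ᶠ (V : Subgroup X) (_ : Nat.card V = 4), g V =
      ∑ V : Subgroup X, if Nat.card V = 4 then g V else 0 := by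
    intro g
    rw [finsum_eq_sum_of_fintype]
    refine Finset.sum_congr rfl fun V _ => ?_
    by_cases h : Nat.card V = 4
    · simp only [h, finsum_true, if_true]
    · simp only [h, finsum_false, if_false]
  have hpg : ∀ V : Subgroup X, Nat.card V = 4 → IsPGroup 2 V := by
    intro V hV
    exact IsPGroup.of_card (n := 2) (by rw [hV]; norm_num)
  -- the Brauer map of an idempotent
  have hbrm : ∀ V : Subgroup X, Nat.card V = 4 → _ := fun V hV =>
    H20.brm 2 (FF M) hF X V (Subgroup.normalizer (V : Set X)) (hpg V hV)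
      (Subgroup.centralizer_le_normalizer _) le_rfl
  apply H46.idem_induction
  · -- zero
    intro _
    rw [hsum, rk_zero, mul_zero]
    refine Finset.sum_eq_zero fun V _ => ?_
    split_ifs with h
    · have h1 : (fun t : Subgroup.normalizer (V : Set X) => br V (0 : X → FF M) t) = 0 := by
        funext t
        rw [H66.br_zero]
        rfl
      rw [h1, rk_zero, mul_zero]
    · rfl
  · -- a block
    intro b hb hyp
    have hVB : VB b := hyp b hb hb.1.2
    obtain ⟨hF1, hF2⟩ := hFM M h2M X b hVB
    set S : Set (Subgroup X) :=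
      {V | Nat.card V = 4 ∧ ∃ g ∈ Subgroup.centralizer (V : Set X), b g ≠ 0} with hS
    have hcl : ∀ W ∈ S, ∀ g, conjS g W ∈ S := by
      rintro W ⟨hW, x, hx, hbx⟩ g
      refine ⟨by rw [card_conjS, hW], g * x * g⁻¹, ?_, ?_⟩
      · rw [Subgroup.mem_centralizer_iff]
        intro y hy
        have h1 : g⁻¹ * y * g ∈ W := mem_conjS.1 hy
        have h2 := Subgroup.mem_centralizer_iff.1 hx _ h1
        calc y * (g * x * g⁻¹) = g * ((g⁻¹ * y * g) * x) * g⁻¹ := by group
          _ = g * (x * (g⁻¹ * y * g)) * g⁻¹ := by rw [h2]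
          _ = g * x * g⁻¹ * y := by group
      · rw [hb.1.1]
        exact hbx
    have hN : ∀ V ∈ S, Nat.card (Subgroup.normalizer (V : Set X)) * S.ncard = Nat.card X := by
      intro V hV
      exact card_class S V hV hcl fun W hW => hF1 V W hV.1 hW.1 hV.2 hW.2
    obtain ⟨V₀, hV₀c, hV₀⟩ := hVB.ex
    have hSpos : 0 < S.ncard := (Set.ncard_pos (Set.toFinite S)).2 ⟨V₀, hV₀c, hV₀⟩
    rw [hsum, rk_idem hb.1, hK M h2M X b hVB]
    have hterm : ∀ V : Subgroup X, (if Nat.card V = 4 then
        Nat.card (Subgroup.normalizer (V : Set X)) *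
          rk (fun t : Subgroup.normalizer (V : Set X) => br V b t)
            (cfs (FF M) (Subgroup.normalizer (V : Set X))) else 0) =
        if V ∈ S then Nat.card X / S.ncard * 4 else 0 := by
      intro V
      by_cases hV : Nat.card V = 4
      · rw [if_pos hV]
        by_cases hVS : V ∈ S
        · rw [if_pos hVS]
          have h1 := hF2 V hV hVS.2
          rw [rk_idem h1.blk.1, hK M h2M _ _ h1]
          congr 1
          rw [← hN V hVS, Nat.mul_div_cancel _ hSpos]
        · rw [if_neg hVS]
          have h1 : (fun t : Subgroup.normalizer (V : Set X) => br V b t) = 0 := by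
            funext t
            by_cases ht : (t : X) ∈ Subgroup.centralizer (V : Set X)
            · rw [H66.br_of_mem ht]
              by_contra hne
              exact hVS ⟨hV, t, ht, hne⟩
            · rw [H66.br_of_not_mem ht]
              rfl
          rw [h1, rk_zero, mul_zero]
      · rw [if_neg hV, if_neg fun h => hV h.1]
    rw [Finset.sum_congr rfl fun V _ => hterm V, ← Finset.sum_filter, Finset.sum_const,
      smul_eq_mul]
    have h3 : (Finset.univ.filter fun V => V ∈ S).card = S.ncard := by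
      rw [Set.ncard_eq_toFinset_card' S]
      congr 1
      ext V
      simp
    rw [h3, ← mul_assoc, Nat.mul_div_cancel']
    exact Dvd.intro_left _ (hN V₀ ⟨hV₀c, hV₀⟩)
  · -- a sum
    intro e₁ e₂ h1 h2 h12 ih1 ih2 hyp
    have h21 : mulF e₂ e₁ = 0 := by rw [← H46.mulF_comm h1.1, h12]
    have hz : ∀ a : X → FF M, mulF (0 : X → FF M) a = 0 := by
      intro a
      apply ma_injective
      rw [ma_mul, ma_zero, zero_mul]
    have hadd : ∀ a b c : X → FF M, mulF (a + b) c = mulF a c + mulF b c := by
      intro a b c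
      apply ma_injective
      rw [ma_mul, ma_add, ma_add, ma_mul, ma_mul, add_mul]
    have e1 := ih1 fun c hc hle => hyp c hc (by
      rw [hadd, hle]
      have : mulF e₂ c = 0 := by
        rw [← hle, ← mulF_assoc, h21, hz]
      rw [this, add_zero])
    have e2 := ih2 fun c hc hle => hyp c hc (by
      rw [hadd, hle]
      have : mulF e₁ c = 0 := by
        rw [← hle, ← mulF_assoc, h12, hz]
      rw [this, zero_add])
    rw [hsum] at e1 e2 ⊢
    rw [rk_add h1 h2 h12, mul_add, ← e1, ← e2, ← Finset.sum_add_distrib]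
    refine Finset.sum_congr rfl fun V _ => ?_
    by_cases hV : Nat.card V = 4
    · rw [if_pos hV, if_pos hV, if_pos hV, ← mul_add]
      congr 1
      obtain ⟨g1, g2, g3⟩ := hbrm V hV
      have h3 : (fun t : Subgroup.normalizer (V : Set X) => br V (e₁ + e₂) t) =
          (fun t : Subgroup.normalizer (V : Set X) => br V e₁ t) +
            (fun t : Subgroup.normalizer (V : Set X) => br V e₂ t) := by
        funext t
        by_cases ht : (t : X) ∈ Subgroup.centralizer (V : Set X)
        · rw [Pi.add_apply, H66.br_of_mem ht, H66.br_of_mem ht, H66.br_of_mem ht]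
          rfl
        · rw [Pi.add_apply, H66.br_of_not_mem ht, H66.br_of_not_mem ht, H66.br_of_not_mem ht,
            add_zero]
      rw [h3]
      refine rk_add (g3 e₁ h1) (g3 e₂ h2) ?_
      rw [← g2, ← g1 e₁ e₂ h1.1 h2.1, h12, H66.br_zero]
      rfl
    · rw [if_neg hV, if_neg hV, if_neg hV]

end Pool.Agent.PP.KF.H99
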